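import Mathlib

/-!
Every finite group `G` is the stabiliser, under simultaneous permutations of rows and columns, of an
`n × n` matrix over `ZMod l`; moreover the multiplication of the matrix by a unit `c` is realised by a
permutation `h c` which commutes with `G`.
-/

namespace Pool.Agent.H18.Uni

open Equiv

section Rel

variable {G : Type*} [Group G] {m : ℕ} (s : Fin m ≃ G)

/-- The digraph (with loops at the roots `(g, 0)`) on `G × Fin (m + 1)`. -/
def Rel (x y : G × Fin (m + 1)) : Prop :=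
  (x.2 = 0 ∧ y.2 = 0 ∧ x.1 = y.1) ∨ (y.2.val = x.2.val + 1 ∧ x.1 = y.1) ∨
    (∃ k : Fin m, x.2 = k.succ ∧ y.2 = 0 ∧ y.1 = x.1 * s k)

lemma rel_self_iff (x : G × Fin (m + 1)) : Rel s x x ↔ x.2 = 0 := by
  constructor
  · rintro (h | h | ⟨k, h1, h2, -⟩)
    · exact h.1
    · omega
    · exact h2
  · intro h
    exact Or.inl ⟨h, h, rfl⟩

lemma rel_smul (g : G) (x y : G × Fin (m + 1)) :
    Rel s (g * x.1, x.2) (g * y.1, y.2) ↔ Rel s x y := by
  unfold Rel
  simp [mul_assoc]

lemma exists_rel (x : G × Fin (m + 1)) : ∃ y, Rel s x y := by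
  rcases x with ⟨g, i⟩
  refine Fin.cases ?_ (fun k => ?_) i
  · exact ⟨(g, 0), Or.inl ⟨rfl, rfl, rfl⟩⟩
  · exact ⟨(g * s k, 0), Or.inr (Or.inr ⟨k, rfl, rfl, rfl⟩)⟩

/-- A map which preserves and reflects the digraph is a left translation. -/
lemma eq_translation (φ : G × Fin (m + 1) → G × Fin (m + 1))
    (hφ : ∀ x y, Rel s (φ x) (φ y) ↔ Rel s x y) :
    ∃ g : G, ∀ x, φ x = (g * x.1, x.2) := by
  have hroot : ∀ x, (φ x).2 = 0 ↔ x.2 = 0 := fun x => by
    rw [← rel_self_iff s (φ x), hφ, rel_self_iff]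
  -- the chain
  have hchain : ∀ (g : G) (i : ℕ) (hi : i < m + 1),
      φ (g, ⟨i, hi⟩) = ((φ (g, 0)).1, ⟨i, hi⟩) := by
    intro g i
    induction i with
    | zero =>
      intro hi
      have h0 : (⟨0, hi⟩ : Fin (m + 1)) = 0 := rfl
      rw [h0]
      have := (hroot (g, 0)).2 rfl
      exact Prod.ext rfl this
    | succ i ih =>
      intro hi
      have hi' : i < m + 1 := by omega
      have hr : Rel s (φ (g, ⟨i, hi'⟩)) (φ (g, ⟨i + 1, hi⟩)) :=
        (hφ _ _).2 (Or.inr (Or.inl ⟨rfl, rfl⟩))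
      have hnr : (φ (g, ⟨i + 1, hi⟩)).2 ≠ 0 := by
        intro h
        have := (hroot _).1 h
        exact absurd (congrArg Fin.val this) (by simp)
      rw [ih hi'] at hr
      rcases hr with h | h | ⟨k, -, h2, -⟩
      · exact absurd h.2.1 hnr
      · refine Prod.ext h.2.symm (Fin.ext ?_)
        exact h.1
      · exact absurd h2 hnr
  have hchain' : ∀ x : G × Fin (m + 1), φ x = ((φ (x.1, 0)).1, x.2) := by
    rintro ⟨g, i, hi⟩
    exact hchain g i hi
  -- the colours
  have hcol : ∀ (g h : G), (φ (g * h, 0)).1 = (φ (g, 0)).1 * h := by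
    intro g h
    obtain ⟨k, rfl⟩ := s.surjective h
    have hr : Rel s (φ (g, k.succ)) (φ (g * s k, 0)) :=
      (hφ _ _).2 (Or.inr (Or.inr ⟨k, rfl, rfl, rfl⟩))
    rw [hchain' (g, k.succ), hchain' (g * s k, 0)] at hr
    rcases hr with h | h | ⟨k', h1, -, h3⟩
    · exact absurd h.1 (Fin.succ_ne_zero k)
    · have := h.1
      simp at this
    · have hk : k = k' := Fin.succ_injective _ h1
      subst hk
      exact h3
  refine ⟨(φ (1, 0)).1, fun x => ?_⟩
  rw [hchain' x]
  have := hcol 1 x.1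
  rw [one_mul] at this
  rw [this]

end Rel

section Mat

variable {G : Type*} [Group G] {m : ℕ} (s : Fin m ≃ G) (l : ℕ) [Fact l.Prime]

open Classical in
/-- The matrix over `ZMod l`. -/
noncomputable def mat (x y : (G × Fin (m + 1)) × (ZMod l)ˣ) : ZMod l :=
  if (y.2 = x.2 ∧ Rel s x.1 y.1) ∨ (y.2 ≠ x.2 ∧ x.1 = y.1) then (x.2 : ZMod l) else 0

lemma mat_eq_of_ne_zero {x y : (G × Fin (m + 1)) × (ZMod l)ˣ} (h : mat s l x y ≠ 0) :
    mat s l x y = x.2 ∧ ((y.2 = x.2 ∧ Rel s x.1 y.1) ∨ (y.2 ≠ x.2 ∧ x.1 = y.1)) := by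
  unfold mat at h ⊢
  split_ifs at h ⊢ with h1
  · exact ⟨rfl, h1⟩
  · exact absurd rfl h

lemma mat_pos {x y : (G × Fin (m + 1)) × (ZMod l)ˣ}
    (h : (y.2 = x.2 ∧ Rel s x.1 y.1) ∨ (y.2 ≠ x.2 ∧ x.1 = y.1)) :
    mat s l x y = x.2 := if_pos h

lemma mat_scale (c : (ZMod l)ˣ) (x y : (G × Fin (m + 1)) × (ZMod l)ˣ) :
    mat s l (x.1, c * x.2) (y.1, c * y.2) = c * mat s l x y := by
  unfold mat
  have h1 : ((y.1, c * y.2).2 = (x.1, c * x.2).2 ∧ Rel s (x.1, c * x.2).1 (y.1, c * y.2).1 ∨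
      (y.1, c * y.2).2 ≠ (x.1, c * x.2).2 ∧ (x.1, c * x.2).1 = (y.1, c * y.2).1) ↔
      (y.2 = x.2 ∧ Rel s x.1 y.1 ∨ y.2 ≠ x.2 ∧ x.1 = y.1) := by
    simp only [mul_right_inj, ne_eq]
  by_cases h : (y.2 = x.2 ∧ Rel s x.1 y.1 ∨ y.2 ≠ x.2 ∧ x.1 = y.1)
  · rw [if_pos h, if_pos (h1.2 h)]
    simp
  · rw [if_neg h, if_neg (fun h' => h (h1.1 h'))]
    simp

lemma mat_smul (g : G) (x y : (G × Fin (m + 1)) × (ZMod l)ˣ) :
    mat s l ((g * x.1.1, x.1.2), x.2) ((g * y.1.1, y.1.2), y.2) = mat s l x y := by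
  unfold mat
  have h1 := rel_smul s g x.1 y.1
  have h2 : ((g * x.1.1, x.1.2) : G × Fin (m + 1)) = (g * y.1.1, y.1.2) ↔ x.1 = y.1 := by
    constructor
    · intro h
      have h3 := congrArg Prod.fst h
      have h4 := congrArg Prod.snd h
      exact Prod.ext (mul_left_cancel h3) h4
    · intro h
      rw [h]
  have h3 : ((((g * y.1.1, y.1.2), y.2) : (G × Fin (m + 1)) × (ZMod l)ˣ).2
      = (((g * x.1.1, x.1.2), x.2) : (G × Fin (m + 1)) × (ZMod l)ˣ).2 ∧
      Rel s (((g * x.1.1, x.1.2), x.2) : (G × Fin (m + 1)) × (ZMod l)ˣ).1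
        (((g * y.1.1, y.1.2), y.2) : (G × Fin (m + 1)) × (ZMod l)ˣ).1 ∨
      (((g * y.1.1, y.1.2), y.2) : (G × Fin (m + 1)) × (ZMod l)ˣ).2
        ≠ (((g * x.1.1, x.1.2), x.2) : (G × Fin (m + 1)) × (ZMod l)ˣ).2 ∧
      (((g * x.1.1, x.1.2), x.2) : (G × Fin (m + 1)) × (ZMod l)ˣ).1
        = (((g * y.1.1, y.1.2), y.2) : (G × Fin (m + 1)) × (ZMod l)ˣ).1) ↔
      (y.2 = x.2 ∧ Rel s x.1 y.1 ∨ y.2 ≠ x.2 ∧ x.1 = y.1) := by
    show (y.2 = x.2 ∧ Rel s (g * x.1.1, x.1.2) (g * y.1.1, y.1.2) ∨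
      y.2 ≠ x.2 ∧ ((g * x.1.1, x.1.2) : G × Fin (m + 1)) = (g * y.1.1, y.1.2)) ↔ _
    rw [h1, h2]
  by_cases h : (y.2 = x.2 ∧ Rel s x.1 y.1 ∨ y.2 ≠ x.2 ∧ x.1 = y.1)
  · rw [if_pos h, if_pos (h3.2 h)]
  · rw [if_neg h, if_neg (fun h' => h (h3.1 h'))]

/-- The stabiliser of the matrix consists of the left translations. -/
lemma mat_stab (π : ((G × Fin (m + 1)) × (ZMod l)ˣ) → ((G × Fin (m + 1)) × (ZMod l)ˣ))
    (hπ : ∀ x y, mat s l (π x) (π y) = mat s l x y) :
    ∃ g : G, ∀ x, π x = ((g * x.1.1, x.1.2), x.2) := by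
  have hne : ∀ a : (ZMod l)ˣ, (a : ZMod l) ≠ 0 := fun a => a.ne_zero
  -- the second coordinate is preserved
  have h2 : ∀ x, (π x).2 = x.2 := by
    intro x
    obtain ⟨y, hy⟩ := exists_rel s x.1
    have h1 : mat s l x (y, x.2) = x.2 := mat_pos s l (Or.inl ⟨rfl, hy⟩)
    have h3 : mat s l (π x) (π (y, x.2)) = x.2 := by rw [hπ, h1]
    have h4 : mat s l (π x) (π (y, x.2)) ≠ 0 := by rw [h3]; exact hne _
    have h5 := (mat_eq_of_ne_zero s l h4).1
    rw [h3] at h5
    exact (Units.ext h5).symm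
  -- every copy
  have h3 : ∀ a : (ZMod l)ˣ, ∃ g : G, ∀ x : G × Fin (m + 1), (π (x, a)).1 = (g * x.1, x.2) := by
    intro a
    apply eq_translation s (fun x => (π (x, a)).1)
    intro x y
    constructor
    · intro h
      have h4 : mat s l (π (x, a)) (π (y, a)) = (π (x, a)).2 :=
        mat_pos s l (Or.inl ⟨by rw [h2, h2], h⟩)
      rw [hπ] at h4
      have h5 : mat s l (x, a) (y, a) ≠ 0 := by rw [h4]; exact hne _
      rcases (mat_eq_of_ne_zero s l h5).2 with h6 | h6
      · exact h6.2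
      · exact absurd rfl h6.1
    · intro h
      have h4 : mat s l (x, a) (y, a) = a := mat_pos s l (Or.inl ⟨rfl, h⟩)
      have h5 : mat s l (π (x, a)) (π (y, a)) ≠ 0 := by rw [hπ, h4]; exact hne _
      rcases (mat_eq_of_ne_zero s l h5).2 with h6 | h6
      · exact h6.2
      · exact absurd (by rw [h2, h2]) h6.1
  -- all copies are moved by the same translation
  have h4 : ∀ (a b : (ZMod l)ˣ) (x : G × Fin (m + 1)), (π (x, a)).1 = (π (x, b)).1 := by
    intro a b x
    by_cases hab : b = a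
    · rw [hab]
    · have h5 : mat s l (x, a) (x, b) = a := mat_pos s l (Or.inr ⟨hab, rfl⟩)
      have h6 : mat s l (π (x, a)) (π (x, b)) ≠ 0 := by rw [hπ, h5]; exact hne _
      rcases (mat_eq_of_ne_zero s l h6).2 with h7 | h7
      · rw [h2, h2] at h7
        exact absurd h7.1 hab
      · exact h7.2
  obtain ⟨g, hg⟩ := h3 1
  refine ⟨g, fun x => ?_⟩
  refine Prod.ext ?_ (h2 x)
  rw [← hg x.1, h4 1 x.2 x.1]

end Mat

/-- The action of `G` on the index set. -/
def transl (G : Type*) [Group G] (m l : ℕ) :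
    G →* Perm ((G × Fin (m + 1)) × (ZMod l)ˣ) where
  toFun g :=
    { toFun := fun x => ((g * x.1.1, x.1.2), x.2)
      invFun := fun x => ((g⁻¹ * x.1.1, x.1.2), x.2)
      left_inv := fun x => by simp
      right_inv := fun x => by simp }
  map_one' := by ext x <;> simp
  map_mul' g h := by ext x <;> simp [mul_assoc]

/-- The action of the units on the index set. -/
def scal (G : Type*) (m l : ℕ) :
    (ZMod l)ˣ →* Perm ((G × Fin (m + 1)) × (ZMod l)ˣ) where
  toFun c :=
    { toFun := fun x => (x.1, c * x.2)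
      invFun := fun x => (x.1, c⁻¹ * x.2)
      left_inv := fun x => by simp
      right_inv := fun x => by simp }
  map_one' := by ext x <;> simp
  map_mul' g h := by ext x <;> simp [mul_assoc]

/-- Every finite group is the stabiliser of a matrix over `ZMod l` under simultaneous permutations of
rows and columns, and the multiples of the matrix by units are conjugate to it by permutations which
commute with the group. -/
theorem exists_matrix (G : Type*) [Group G] [Finite G] (l : ℕ) [Fact l.Prime] :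
    ∃ (n : ℕ) (ι : G →* Perm (Fin n)) (A : Fin n → Fin n → ZMod l)
      (h : (ZMod l)ˣ →* Perm (Fin n)), Function.Injective ι ∧
      (∀ π : Perm (Fin n), (∀ x y, A (π x) (π y) = A x y) ↔ π ∈ ι.range) ∧
      (∀ (c : (ZMod l)ˣ) x y, A (h c x) (h c y) = c * A x y) ∧
      (∀ c g, Commute (h c) (ι g)) := by
  classical
  obtain ⟨m, ⟨e⟩⟩ := Finite.exists_equiv_fin G
  let s : Fin m ≃ G := e.symm
  obtain ⟨n, ⟨E⟩⟩ := Finite.exists_equiv_fin ((G × Fin (m + 1)) × (ZMod l)ˣ)
  let P : Perm ((G × Fin (m + 1)) × (ZMod l)ˣ) ≃* Perm (Fin n) := E.permCongrHom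
  have hP : ∀ σ x, P σ x = E (σ (E.symm x)) := fun σ x => rfl
  refine ⟨n, P.toMonoidHom.comp (transl G m l), fun x y => mat s l (E.symm x) (E.symm y),
    P.toMonoidHom.comp (scal G m l), ?_, ?_, ?_, ?_⟩
  · intro g g' hgg
    have h1 : transl G m l g = transl G m l g' := P.injective hgg
    have h2 := congrArg (fun σ : Perm _ => (σ ((1, 0), 1)).1.1) h1
    simpa [transl] using h2
  · intro π
    constructor
    · intro hπ
      obtain ⟨g, hg⟩ := mat_stab s l (fun x => E.symm (π (E x))) (fun x y => by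
        have := hπ (E x) (E y)
        simpa using this)
      refine ⟨g, ?_⟩
      ext x
      have h1 := hg (E.symm x)
      simp only [apply_symm_apply] at h1
      have h2 : (P.toMonoidHom.comp (transl G m l)) g x = π x := by
        show E (transl G m l g (E.symm x)) = π x
        have h3 : transl G m l g (E.symm x) = E.symm (π x) := h1.symm
        rw [h3, apply_symm_apply]
      rw [h2]
    · rintro ⟨g, rfl⟩ x y
      have h1 : ∀ z, E.symm ((P.toMonoidHom.comp (transl G m l)) g z)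
          = transl G m l g (E.symm z) := by
        intro z
        show E.symm (E (transl G m l g (E.symm z))) = _
        rw [symm_apply_apply]
      show mat s l (E.symm _) (E.symm _) = _
      rw [h1, h1]
      exact mat_smul s l g _ _
  · intro c x y
    have h1 : ∀ z, E.symm ((P.toMonoidHom.comp (scal G m l)) c z)
        = scal G m l c (E.symm z) := by
      intro z
      show E.symm (E (scal G m l c (E.symm z))) = _
      rw [symm_apply_apply]
    show mat s l (E.symm _) (E.symm _) = _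
    rw [h1, h1]
    exact mat_scale s l c _ _
  · intro c g
    show P (scal G m l c) * P (transl G m l g) = P (transl G m l g) * P (scal G m l c)
    rw [← map_mul, ← map_mul]
    congr 1

end Pool.Agent.H18.Uni
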